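import Pool.Agent.Helper31.CY.St1

/-! Module RED of project CY: the minimal surface equation in the meridian. -/

set_option autoImplicit false

open Set Topology Filter

namespace Pool.Agent.Helper80.CY

open Pool.Agent.Helper31.CY

/-- the meridian embedding -/
private noncomputable def io : ℝ × ℝ →L[ℝ] E3 :=
  (ContinuousLinearMap.fst ℝ ℝ ℝ).smulRight (bv 0) +
    (ContinuousLinearMap.snd ℝ ℝ ℝ).smulRight (bv 2)

private lemma pt_eq (a b c : ℝ) : pt a b c = a • bv 0 + b • bv 1 + c • bv 2 := by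
  ext i
  fin_cases i <;> simp [pt, bv]

private lemma io_apply (w : ℝ × ℝ) : io w = pt w.1 0 w.2 := by
  rw [pt_eq]
  simp [io]

private lemma io_one : io (1, 0) = bv 0 := by simp [io]

private lemma io_two : io (0, 1) = bv 2 := by simp [io]

private lemma chain (g : E3 → ℝ) (w : ℝ × ℝ) (hg : DifferentiableAt ℝ g (io w)) :
    D1 (fun w => g (io w)) w = D 0 g (io w) ∧ D2 (fun w => g (io w)) w = D 2 g (io w) := by
  have h : HasFDerivAt (fun w => g (io w)) ((fderiv ℝ g (io w)).comp io) w :=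
    HasFDerivAt.comp w hg.hasFDerivAt io.hasFDerivAt
  unfold D1 D2 D
  rw [h.fderiv]
  constructor
  · rw [ContinuousLinearMap.comp_apply, io_one]
  · rw [ContinuousLinearMap.comp_apply, io_two]

private lemma dsplit (f : E3 → ℝ) (x : E3) (v : E3) :
    fderiv ℝ f x v = v 0 * D 0 f x + v 1 * D 1 f x + v 2 * D 2 f x := by
  have hv : v = v 0 • bv 0 + v 1 • bv 1 + v 2 • bv 2 := by
    rw [← pt_eq]
    ext i
    fin_cases i <;> simp [pt]
  conv_lhs => rw [hv]
  simp only [map_add, map_smul, smul_eq_mul, D]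

private lemma dD (f : E3 → ℝ) (U : Set E3) (hU : IsOpen U) (hf : ContDiffOn ℝ 2 f U) (i : Fin 3)
    (x : E3) (hx : x ∈ U) : DifferentiableAt ℝ (D i f) x := by
  have h1 : ContDiffOn ℝ 1 (fderiv ℝ f) U := hf.fderiv_of_isOpen hU (by norm_num)
  have h2 : DifferentiableAt ℝ (fderiv ℝ f) x :=
    (h1.differentiableOn (by norm_num)).differentiableAt (hU.mem_nhds hx)
  exact h2.clm_apply (differentiableAt_const _)

private lemma symm02 (f : E3 → ℝ) (U : Set E3) (hU : IsOpen U) (hf : ContDiffOn ℝ 2 f U)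
    (x : E3) (hx : x ∈ U) : D 0 (D 2 f) x = D 2 (D 0 f) x := by
  have h1 : ContDiffOn ℝ 1 (fderiv ℝ f) U := hf.fderiv_of_isOpen hU (by norm_num)
  have h2 : DifferentiableAt ℝ (fderiv ℝ f) x :=
    (h1.differentiableOn (by norm_num)).differentiableAt (hU.mem_nhds hx)
  have hs : IsSymmSndFDerivAt ℝ f x :=
    (hf.contDiffAt (hU.mem_nhds hx)).isSymmSndFDerivAt (by simp)
  have key : ∀ i j : Fin 3, D j (D i f) x = fderiv ℝ (fderiv ℝ f) x (bv j) (bv i) := by
    intro i j
    have h3 : HasFDerivAt (fun y => fderiv ℝ f y (bv i))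
        ((ContinuousLinearMap.apply ℝ ℝ (bv i)).comp (fderiv ℝ (fderiv ℝ f) x)) x :=
      (ContinuousLinearMap.apply ℝ ℝ (bv i)).hasFDerivAt.comp x h2.hasFDerivAt
    change fderiv ℝ (fun y => fderiv ℝ f y (bv i)) x (bv j) = _
    rw [h3.fderiv]
    rfl
  rw [key, key]
  exact hs _ _

/-- the circle through the point `(a, 0, b)` -/
private noncomputable def cc (a b θ : ℝ) : E3 := pt (Real.cos θ * a) (Real.sin θ * a) b

private lemma cc_eq (a b θ : ℝ) :
    cc a b θ = (Real.cos θ * a) • bv 0 + (Real.sin θ * a) • bv 1 + b • bv 2 := pt_eq _ _ _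

private lemma cc_deriv (a b θ : ℝ) :
    HasDerivAt (cc a b) ((-Real.sin θ * a) • bv 0 + (Real.cos θ * a) • bv 1) θ := by
  have h1 : HasDerivAt (fun θ => (Real.cos θ * a) • bv 0) ((-Real.sin θ * a) • bv 0) θ :=
    ((Real.hasDerivAt_cos θ).mul_const a).smul_const _
  have h2 : HasDerivAt (fun θ => (Real.sin θ * a) • bv 1) ((Real.cos θ * a) • bv 1) θ :=
    ((Real.hasDerivAt_sin θ).mul_const a).smul_const _
  have h3 := (h1.add h2).add_const (b • bv 2)
  have h4 : cc a b = fun θ => (Real.cos θ * a) • bv 0 + (Real.sin θ * a) • bv 1 + b • bv 2 := by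
    funext t
    exact cc_eq a b t
  rw [h4]
  exact h3

private lemma cc_zero (a b : ℝ) : cc a b 0 = pt a 0 b := by simp [cc]

private lemma cc_rot (a b θ : ℝ) : cc a b θ = rot θ (pt a 0 b) := by
  unfold cc rot
  simp [pt]

private lemma along (g : E3 → ℝ) (a b θ : ℝ) (hg : DifferentiableAt ℝ g (cc a b θ)) :
    HasDerivAt (fun θ => g (cc a b θ))
      ((-Real.sin θ * a) * D 0 g (cc a b θ) + (Real.cos θ * a) * D 1 g (cc a b θ)) θ := by
  have h := hg.hasFDerivAt.comp_hasDerivAt θ (cc_deriv a b θ)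
  have e : fderiv ℝ g (cc a b θ) ((-Real.sin θ * a) • bv 0 + (Real.cos θ * a) • bv 1) =
      (-Real.sin θ * a) * D 0 g (cc a b θ) + (Real.cos θ * a) * D 1 g (cc a b θ) := by
    rw [map_add, map_smul, map_smul]
    rfl
  rw [e] at h
  exact h

theorem hRED : StRED := by
  intro S hS f U hU hf hne hmem hmse F hF
  have hFio : F = fun w => f (io w) := by
    rw [hF]; funext w; rw [io_apply]
  have hV : {w : ℝ × ℝ | pt w.1 0 w.2 ∈ U} = io ⁻¹' U := by
    ext w
    simp only [Set.mem_ofPred_eq, Set.mem_preimage, io_apply]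
  have hVo : IsOpen (io ⁻¹' U) := hU.preimage io.continuous
  have hfd : ∀ x ∈ U, DifferentiableAt ℝ f x := fun x hx =>
    (hf.differentiableOn (by norm_num)).differentiableAt (hU.mem_nhds hx)
  have hD : ∀ w : ℝ × ℝ, io w ∈ U → D1 F w = D 0 f (io w) ∧ D2 F w = D 2 f (io w) := by
    intro w hw
    rw [hFio]
    exact chain f w (hfd _ hw)
  refine ⟨hV ▸ hVo, ?_, ?_, ?_⟩
  · rw [hV, hFio]
    exact hf.comp io.contDiff.contDiffOn (fun w hw => hw)
  · intro w hw
    rw [← io_apply] at hw ⊢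
    exact hD w hw
  · intro w hw0 hwU hwS
    have hwU' : io w ∈ U := by rw [io_apply]; exact hwU
    obtain ⟨a, b⟩ := w
    simp only at hw0 hwU hwS
    -- second derivatives of F
    have hev1 : D1 F =ᶠ[𝓝 ((a, b) : ℝ × ℝ)] fun w => D 0 f (io w) := by
      filter_upwards [hVo.mem_nhds hwU'] with w hw
      exact (hD w hw).1
    have hev2 : D2 F =ᶠ[𝓝 ((a, b) : ℝ × ℝ)] fun w => D 2 f (io w) := by
      filter_upwards [hVo.mem_nhds hwU'] with w hw
      exact (hD w hw).2
    have e11 : D1 (D1 F) (a, b) = D 0 (D 0 f) (io (a, b)) := by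
      have h := (chain (D 0 f) (a, b) (dD f U hU hf 0 _ hwU')).1
      rw [← h]
      unfold D1 at hev1 ⊢
      rw [hev1.fderiv_eq]
    have e21 : D2 (D1 F) (a, b) = D 2 (D 0 f) (io (a, b)) := by
      have h := (chain (D 0 f) (a, b) (dD f U hU hf 0 _ hwU')).2
      rw [← h]
      unfold D2
      rw [hev1.fderiv_eq]
    have e22 : D2 (D2 F) (a, b) = D 2 (D 2 f) (io (a, b)) := by
      have h := (chain (D 2 f) (a, b) (dD f U hU hf 2 _ hwU')).2
      rw [← h]
      unfold D2 at hev2 ⊢
      rw [hev2.fderiv_eq]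
    -- the circle
    have hx0 : io (a, b) = cc a b 0 := by rw [io_apply, cc_zero]
    have hcont : Continuous (cc a b) :=
      continuous_iff_continuousAt.2 fun θ => (cc_deriv a b θ).continuousAt
    have hUc : ∀ᶠ θ in 𝓝 (0 : ℝ), cc a b θ ∈ U := by
      have h0 : cc a b 0 ∈ U := hx0 ▸ hwU'
      exact hcont.continuousAt.eventually (hU.mem_nhds h0)
    have hzero : ∀ᶠ θ in 𝓝 (0 : ℝ), f (cc a b θ) = 0 := by
      filter_upwards [hUc] with θ hθ
      refine (hmem _ hθ).1 ?_
      rw [cc_rot]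
      exact hS θ _ hwS
    have hder : ∀ᶠ θ in 𝓝 (0 : ℝ), (-Real.sin θ * a) * D 0 f (cc a b θ) +
        (Real.cos θ * a) * D 1 f (cc a b θ) = 0 := by
      have h2 := hzero.eventually_nhds
      filter_upwards [h2, hUc] with θ hθ hθU
      have h3 := along f a b θ (hfd _ hθU)
      have h4 : HasDerivAt (fun θ => f (cc a b θ)) 0 θ :=
        (hasDerivAt_const θ (0 : ℝ)).congr_of_eventuallyEq hθ
      exact h3.unique h4
    have hUz : cc a b 0 ∈ U := hUc.self_of_nhds
    have d1 : D 1 f (io (a, b)) = 0 := by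
      have h := hder.self_of_nhds
      rw [hx0]
      simp only [Real.sin_zero, Real.cos_zero, neg_zero, zero_mul, zero_add, one_mul] at h
      exact (mul_eq_zero.1 h).resolve_left hw0.ne'
    have d11 : a * D 1 (D 1 f) (io (a, b)) = D 0 f (io (a, b)) := by
      have h0 := along (D 0 f) a b 0 (dD f U hU hf 0 _ hUz)
      have h1 := along (D 1 f) a b 0 (dD f U hU hf 1 _ hUz)
      have hs : HasDerivAt (fun θ => -Real.sin θ * a) (-Real.cos 0 * a) 0 :=
        (Real.hasDerivAt_sin 0).neg.mul_const a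
      have hc : HasDerivAt (fun θ => Real.cos θ * a) (-Real.sin 0 * a) 0 :=
        (Real.hasDerivAt_cos 0).mul_const a
      have h2 := (hs.mul h0).add (hc.mul h1)
      have h3 : HasDerivAt (fun θ : ℝ => (-Real.sin θ * a) * D 0 f (cc a b θ) +
          (Real.cos θ * a) * D 1 f (cc a b θ)) 0 0 :=
        (hasDerivAt_const (0 : ℝ) (0 : ℝ)).congr_of_eventuallyEq hder
      have h4 := h2.unique h3
      rw [hx0]
      simp only [Real.sin_zero, Real.cos_zero, neg_zero, zero_mul, zero_add, one_mul, add_zero,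
        neg_mul] at h4
      have h5 : a * (a * D 1 (D 1 f) (cc a b 0)) = a * D 0 f (cc a b 0) := by linarith
      exact mul_left_cancel₀ hw0.ne' h5
    have hsym := symm02 f U hU hf (io (a, b)) hwU'
    have hm := hmse _ hwU hwS
    have hio : pt a 0 b = io (a, b) := (io_apply (a, b)).symm
    constructor
    · unfold PODE
      rw [e11, e22, e21, (hD _ hwU').1, (hD _ hwU').2]
      rw [hio] at hm
      unfold mse at hm
      simp only [Fin.sum_univ_three] at hm
      rw [d1, hsym] at hm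
      simp only
      linear_combination a * hm - (D 0 f (io (a, b)) ^ 2 + D 2 f (io (a, b)) ^ 2) * d11
    · rw [(hD _ hwU').1, (hD _ hwU').2]
      by_contra hcon
      rw [not_or, not_not, not_not] at hcon
      apply hne _ hwU'
      ext v
      rw [dsplit, hcon.1, hcon.2, d1]
      simp

end Pool.Agent.Helper80.CY
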